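import Pool.Agent.Y755.AX.Stm

set_option autoImplicit false

/-!
# Project AX: the weights of Holroyd and Liggett (`S_HLB`)
-/

namespace Pool.Agent.Y918.AX.HLB

open Pool.Agent.Y755.AX

/-- all lists with one entry deleted -/
def dels {α : Type} : List α → List (List α)
  | [] => []
  | a :: x => x :: (dels x).map (a :: ·)

theorem dels_append {α : Type} (x y : List α) :
    dels (x ++ y) = (dels x).map (· ++ y) ++ (dels y).map (x ++ ·) := by
  induction x with
  | nil => simp [dels]
  | cons a x ih => simp [dels, ih, Function.comp_def]

theorem length_dels {α : Type} {x z : List α} (h : z ∈ dels x) : z.length + 1 = x.length := by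
  induction x generalizing z with
  | nil => simp [dels] at h
  | cons a x ih =>
    simp only [dels, List.mem_cons, List.mem_map] at h
    rcases h with h | ⟨w, hw, rfl⟩
    · rw [h]; simp
    · have := ih hw
      simp only [List.length_cons]
      omega

/-- the weights, by recursion on the length -/
def BB : ℕ → List (Fin 4) → ℕ
  | 0, _ => 1
  | n + 1, x => if x.IsChain (· ≠ ·) then ((dels x).map (BB n)).sum else 0

/-- the weights -/
def B (x : List (Fin 4)) : ℕ := BB x.length x

theorem B_nil : B [] = 1 := rfl

theorem B_ne (x : List (Fin 4)) (hx : x ≠ []) :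
    B x = if x.IsChain (· ≠ ·) then ((dels x).map B).sum else 0 := by
  obtain ⟨n, hn⟩ : ∃ n, x.length = n + 1 :=
    ⟨x.length - 1, by have := List.length_pos_iff.2 hx; omega⟩
  unfold B
  rw [hn]
  show (if x.IsChain (· ≠ ·) then ((dels x).map (BB n)).sum else 0) = _
  have : (dels x).map (BB n) = (dels x).map (fun x => BB x.length x) := by
    refine List.map_congr_left fun z hz => ?_
    have := length_dels hz
    rw [show z.length = n by omega]
  rw [this]

theorem B_imp (x : List (Fin 4)) (hx : ¬ x.IsChain (· ≠ ·)) : B x = 0 := by
  have hne : x ≠ [] := by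
    rintro rfl
    exact hx List.isChain_nil
  rw [B_ne x hne, if_neg hx]

theorem imp_mid (u v : List (Fin 4)) (a : Fin 4) : ¬ (u ++ a :: a :: v).IsChain (· ≠ ·) := by
  intro h
  have h1 := (List.isChain_append.1 h).2.1
  rw [List.isChain_cons_cons] at h1
  exact h1.1 rfl

theorem B_mid (u v : List (Fin 4)) (a : Fin 4) : B (u ++ a :: a :: v) = 0 :=
  B_imp _ (imp_mid u v a)

theorem L1 (x y : List (Fin 4)) (a : Fin 4) :
    ((dels (x ++ [a])).map (fun z => B (z ++ a :: y))).sum = B (x ++ [a] ++ y) := by
  rw [dels_append]
  simp only [dels, List.map_append, List.map_map, List.sum_append, List.map_cons, List.map_nil,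
    List.append_nil, List.sum_cons, List.sum_nil, Nat.add_zero]
  have : ((dels x).map ((fun z => B (z ++ a :: y)) ∘ fun z => z ++ [a])).sum = 0 := by
    refine List.sum_eq_zero fun k hk => ?_
    obtain ⟨z, _, rfl⟩ := List.mem_map.1 hk
    show B (z ++ [a] ++ a :: y) = 0
    rw [List.append_assoc]
    exact B_mid z y a
  rw [this, Nat.zero_add, List.append_assoc]
  rfl

theorem L2 (x y : List (Fin 4)) (a : Fin 4) :
    ((dels x).map (fun z => B (z ++ a :: a :: y))).sum = 0 := by
  refine List.sum_eq_zero fun k hk => ?_
  obtain ⟨z, _, rfl⟩ := List.mem_map.1 hk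
  exact B_mid z y a

theorem R1 (x y : List (Fin 4)) (a : Fin 4) :
    ((dels (a :: y)).map (fun z => B (x ++ a :: z))).sum = B (x ++ a :: y) := by
  simp only [dels, List.map_cons, List.map_map, List.sum_cons]
  have : ((dels y).map ((fun z => B (x ++ a :: z)) ∘ fun z => a :: z)).sum = 0 := by
    refine List.sum_eq_zero fun k hk => ?_
    obtain ⟨z, _, rfl⟩ := List.mem_map.1 hk
    exact B_mid x z a
  rw [this, Nat.add_zero]

theorem R2 (x y : List (Fin 4)) (a : Fin 4) :
    ((dels y).map (fun z => B (x ++ [a] ++ a :: z))).sum = 0 := by
  refine List.sum_eq_zero fun k hk => ?_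
  obtain ⟨z, _, rfl⟩ := List.mem_map.1 hk
  show B (x ++ [a] ++ a :: z) = 0
  rw [List.append_assoc]
  exact B_mid x z a

/-- The sum over all deletions from `x a y`. -/
def RR (x y : List (Fin 4)) (a : Fin 4) : ℕ :=
  B (x ++ y) + ((dels x).map (fun z => B (z ++ a :: y))).sum +
    ((dels y).map (fun z => B (x ++ a :: z))).sum

theorem RR_eq (x y : List (Fin 4)) (a : Fin 4) :
    ((dels (x ++ a :: y)).map B).sum = RR x y a := by
  rw [dels_append]
  simp only [dels, List.map_append, List.map_map, List.sum_append, List.map_cons, List.sum_cons,
    RR, Function.comp_def]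
  ring

theorem key (x y : List (Fin 4)) (hx : x.IsChain (· ≠ ·)) (hy : y.IsChain (· ≠ ·)) (a : Fin 4) :
    B (x ++ a :: y) + (if x.getLast? = some a ∨ y.head? = some a then 2 * B (x ++ y) else 0) =
      RR x y a := by
  by_cases h1 : x.getLast? = some a
  · obtain ⟨x', rfl⟩ : ∃ x', x = x' ++ [a] := by
      rcases List.eq_nil_or_concat x with h | ⟨x', c, h⟩
      · rw [h] at h1; simp at h1
      · refine ⟨x', ?_⟩
        rw [h] at h1 ⊢
        simp at h1
        rw [h1, List.concat_eq_append]
    by_cases h2 : y.head? = some a
    · obtain ⟨y', rfl⟩ : ∃ y', y = a :: y' := by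
        cases y with
        | nil => simp at h2
        | cons c y' => exact ⟨y', by simp at h2; rw [h2]⟩
      unfold RR
      rw [L2, R2, if_pos (Or.inl h1)]
      have e1 : B (x' ++ [a] ++ a :: y') = 0 := by
        rw [List.append_assoc]; exact B_mid x' y' a
      have e2 : B (x' ++ [a] ++ a :: a :: y') = 0 := by
        rw [List.append_assoc]; exact B_mid x' (a :: y') a
      rw [e1, e2]
    · unfold RR
      rw [L1, R2, if_pos (Or.inl h1)]
      have e2 : B (x' ++ [a] ++ a :: y) = 0 := by
        rw [List.append_assoc]; exact B_mid x' y a
      rw [e2]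
      ring
  · by_cases h2 : y.head? = some a
    · obtain ⟨y', rfl⟩ : ∃ y', y = a :: y' := by
        cases y with
        | nil => simp at h2
        | cons c y' => exact ⟨y', by simp at h2; rw [h2]⟩
      unfold RR
      rw [L2, R1, if_pos (Or.inr h2), B_mid x y' a]
      ring
    · rw [if_neg (by rintro (h | h); exact h1 h; exact h2 h), Nat.add_zero]
      rw [B_ne _ (by simp), if_pos, RR_eq]
      rw [List.isChain_append]
      refine ⟨hx, ?_, ?_⟩
      · rw [List.isChain_cons]
        refine ⟨fun c hc => ?_, hy⟩
        rintro rfl
        exact h2 hc
      · intro c hc d hd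
        simp only [List.head?_cons, Option.mem_def, Option.some.injEq] at hd
        rw [← hd]
        rintro rfl
        exact h1 hc

theorem sum_swap {β : Type} (l : List β) (f : Fin 4 → β → ℕ) :
    ∑ a : Fin 4, (l.map (f a)).sum = (l.map (fun z => ∑ a : Fin 4, f a z)).sum := by
  induction l with
  | nil => simp
  | cons b l ih =>
    simp only [List.map_cons, List.sum_cons, Finset.sum_add_distrib]
    rw [ih]

theorem sum_mul_const {β : Type} (l : List β) (f : β → ℕ) (c d : ℕ) :
    (l.map (fun z => c * f z * d)).sum = c * (l.map f).sum * d := by
  induction l with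
  | nil => simp
  | cons b l ih =>
    simp only [List.map_cons, List.sum_cons]
    rw [ih]
    ring

theorem sum_mul_const' {β : Type} (l : List β) (f : β → ℕ) (c d : ℕ) :
    (l.map (fun z => c * d * f z)).sum = c * d * (l.map f).sum := by
  induction l with
  | nil => simp
  | cons b l ih =>
    simp only [List.map_cons, List.sum_cons]
    rw [ih]
    ring

theorem main (N : ℕ) : ∀ x y : List (Fin 4), x.length + y.length = N →
    ∑ a : Fin 4, B (x ++ a :: y) =
      2 * (x.length + y.length + 2).choose (x.length + 1) * B x * B y := by
  induction N with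
  | zero =>
    intro x y h
    have hx : x = [] := List.length_eq_zero_iff.1 (by omega)
    have hy : y = [] := List.length_eq_zero_iff.1 (by omega)
    subst hx hy
    have : ∀ a : Fin 4, B ([] ++ a :: []) = 1 := by
      intro a
      rw [List.nil_append, B_ne _ (by simp), if_pos (by simp)]
      simp [dels, B_nil]
    rw [Finset.sum_congr rfl fun a _ => this a]
    simp [B_nil]
  | succ N ih =>
    intro x y h
    by_cases hx : x.IsChain (· ≠ ·)
    swap
    · rw [B_imp x hx]
      simp only [mul_zero, zero_mul]
      refine Finset.sum_eq_zero fun a _ => B_imp _ fun hc => hx (List.isChain_append.1 hc).1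
    by_cases hy : y.IsChain (· ≠ ·)
    swap
    · rw [B_imp y hy]
      simp only [mul_zero]
      refine Finset.sum_eq_zero fun a _ => B_imp _ fun hc => hy ?_
      exact (List.isChain_cons.1 (List.isChain_append.1 hc).2.1).2
    -- the sums over the deletions
    have hX : ∑ a : Fin 4, ((dels x).map (fun z => B (z ++ a :: y))).sum =
        2 * (x.length + y.length + 1).choose x.length * ((dels x).map B).sum * B y := by
      rw [sum_swap, ← sum_mul_const]
      congr 1
      refine List.map_congr_left fun z hz => ?_
      have hl := length_dels hz
      rw [ih z y (by omega), ← hl]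
      congr 4
      omega
    have hY : ∑ a : Fin 4, ((dels y).map (fun z => B (x ++ a :: z))).sum =
        2 * (x.length + y.length + 1).choose (x.length + 1) * B x * ((dels y).map B).sum := by
      rw [sum_swap, ← sum_mul_const']
      congr 1
      refine List.map_congr_left fun z hz => ?_
      have hl := length_dels hz
      rw [ih x z (by omega), ← hl]
      congr 4
    have hS : ∑ a : Fin 4, B (x ++ a :: y) +
        ∑ a : Fin 4, (if x.getLast? = some a ∨ y.head? = some a then 2 * B (x ++ y) else 0) =
        4 * B (x ++ y) + 2 * (x.length + y.length + 1).choose x.length * ((dels x).map B).sum * B y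
          + 2 * (x.length + y.length + 1).choose (x.length + 1) * B x * ((dels y).map B).sum := by
      rw [← hX, ← hY, ← Finset.sum_add_distrib, Finset.sum_congr rfl fun a _ => key x y hx hy a]
      unfold RR
      rw [Finset.sum_add_distrib, Finset.sum_add_distrib]
      simp
    rcases List.eq_nil_or_concat x with h1 | ⟨x', c, h1⟩
    · cases y with
      | nil =>
        rw [h1] at h
        simp at h
      | cons d y' =>
        subst h1
        have e1 : ∑ a : Fin 4, (if ([] : List (Fin 4)).getLast? = some a ∨
            (d :: y').head? = some a then 2 * B ([] ++ d :: y') else 0) = 2 * B (d :: y') := by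
          simp
        rw [e1] at hS
        have e2 : ((dels (d :: y')).map B).sum = B (d :: y') := by
          rw [B_ne (d :: y') (by simp), if_pos hy]
        rw [e2] at hS
        simp only [List.nil_append, List.length_nil, Nat.zero_add, dels, List.map_nil,
          List.sum_nil, B_nil, Nat.choose_one_right, mul_zero, zero_mul, Nat.add_zero, mul_one,
          Nat.zero_add] at hS ⊢
        nlinarith
    · rw [List.concat_eq_append] at h1
      have e2 : ((dels x).map B).sum = B x := by
        rw [B_ne x (by rw [h1]; simp), if_pos hx]
      rw [e2] at hS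
      cases y with
      | nil =>
        have e1 : ∑ a : Fin 4, (if x.getLast? = some a ∨
            ([] : List (Fin 4)).head? = some a then 2 * B (x ++ []) else 0) = 2 * B x := by
          rw [h1]
          simp
        rw [e1] at hS
        simp only [List.append_nil, List.length_nil, Nat.add_zero, dels, List.map_nil,
          List.sum_nil, B_nil, mul_zero, mul_one] at hS ⊢
        rw [show (x.length + 1).choose x.length = x.length + 1 from
          Nat.choose_succ_self_right _] at hS
        rw [show (x.length + 2).choose (x.length + 1) = x.length + 2 from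
          Nat.choose_succ_self_right _]
        nlinarith
      | cons d y' =>
        have e3 : ((dels (d :: y')).map B).sum = B (d :: y') := by
          rw [B_ne (d :: y') (by simp), if_pos hy]
        rw [e3] at hS
        have e1 : ∑ a : Fin 4, (if x.getLast? = some a ∨
            (d :: y').head? = some a then 2 * B (x ++ d :: y') else 0) =
            4 * B (x ++ d :: y') := by
          by_cases hcd : c = d
          · have : B (x ++ d :: y') = 0 := by
              rw [h1, hcd, List.append_assoc]
              exact B_mid x' y' d
            rw [this]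
            simp
          · have e4 : ∀ a : Fin 4, (if x.getLast? = some a ∨
                (d :: y').head? = some a then 2 * B (x ++ d :: y') else 0) =
                (if c = a then 2 * B (x ++ d :: y') else 0) +
                (if d = a then 2 * B (x ++ d :: y') else 0) := by
              intro a
              have e5 : x.getLast? = some a ↔ c = a := by
                rw [h1]; simp
              have e6 : (d :: y').head? = some a ↔ d = a := by simp
              rw [if_congr (or_congr e5 e6) rfl rfl]
              by_cases ha : c = a
              · have hda : ¬ d = a := fun hd => hcd (ha.trans hd.symm)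
                simp [ha, hda]
              · simp [ha]
            rw [Finset.sum_congr rfl fun a _ => e4 a, Finset.sum_add_distrib]
            simp
            ring
        rw [e1] at hS
        have hp : (x.length + (d :: y').length + 2).choose (x.length + 1) =
            (x.length + (d :: y').length + 1).choose x.length +
              (x.length + (d :: y').length + 1).choose (x.length + 1) :=
          Nat.choose_succ_succ _ _
        rw [hp]
        have := hS
        nlinarith

end Pool.Agent.Y918.AX.HLB

theorem Pool.Agent.Y918.AX.HLB.t_HLB : Pool.Agent.Y755.AX.S_HLB :=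
  ⟨Pool.Agent.Y918.AX.HLB.B, Pool.Agent.Y918.AX.HLB.B_nil,
    fun u v a => Pool.Agent.Y918.AX.HLB.B_mid u v a,
    fun x y => Pool.Agent.Y918.AX.HLB.main _ x y rfl⟩
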