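import Pool.Agent.Y755.AX.Stm

set_option autoImplicit false

/-!
# Project AX: a stationary measure from cylinder probabilities (`S_KOL`)
-/

open MeasureTheory Filter Topology

namespace Pool.Agent.Y918.AX.KOL

open Pool.Agent.Y755.AX

/-- cylinders given by a list -/
def Cy (s : ℤ) (x : List (Fin 4)) : Set (ℤ → Fin 4) :=
  {Y | ∀ i : Fin x.length, Y (s + (i : ℕ)) = x.get i}

theorem mem_Cy {s : ℤ} {x : List (Fin 4)} {Y : ℤ → Fin 4} :
    Y ∈ Cy s x ↔ ∀ (i : ℕ) (h : i < x.length), Y (s + (i : ℕ)) = x[i] :=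
  ⟨fun h i hi => h ⟨i, hi⟩, fun h i => h i.1 i.2⟩

theorem clopen (s : ℤ) (x : List (Fin 4)) : IsClopen (Cy s x) := by
  have : Cy s x = ⋂ i : Fin x.length, (fun Y : ℤ → Fin 4 => Y (s + (i : ℕ))) ⁻¹' {x.get i} := by
    ext Y
    simp [Cy]
  rw [this]
  exact isClopen_iInter_of_finite fun i =>
    (isClopen_discrete _).preimage (continuous_apply _)

theorem mem_snoc {s : ℤ} {x : List (Fin 4)} {a : Fin 4} {Y : ℤ → Fin 4} :
    Y ∈ Cy s (x ++ [a]) ↔ Y ∈ Cy s x ∧ Y (s + (x.length : ℕ)) = a := by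
  rw [mem_Cy, mem_Cy]
  constructor
  · intro h
    refine ⟨fun i hi => ?_, ?_⟩
    · rw [h i (by simp; omega), List.getElem_append_left hi]
    · rw [h x.length (by simp)]
      simp
  · rintro ⟨h1, h2⟩ i hi
    simp only [List.length_append, List.length_cons, List.length_nil] at hi
    rcases Nat.lt_or_ge i x.length with h | h
    · rw [h1 i h, List.getElem_append_left h]
    · obtain rfl : i = x.length := by omega
      rw [h2]
      simp

theorem mem_cons {s : ℤ} {x : List (Fin 4)} {a : Fin 4} {Y : ℤ → Fin 4} :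
    Y ∈ Cy s (a :: x) ↔ Y ∈ Cy (s + 1) x ∧ Y s = a := by
  rw [mem_Cy, mem_Cy]
  constructor
  · intro h
    refine ⟨fun i hi => ?_, ?_⟩
    · have := h (i + 1) (by simp; omega)
      rw [List.getElem_cons_succ] at this
      rw [← this]
      congr 1
      push_cast
      ring
    · have := h 0 (by simp)
      simpa using this
  · rintro ⟨h1, h2⟩ i hi
    cases i with
    | zero => simpa using h2
    | succ i =>
      have := h1 i (by simp at hi; omega)
      rw [List.getElem_cons_succ, ← this]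
      congr 1
      push_cast
      ring

theorem sum_snoc (μ : Measure (ℤ → Fin 4)) (s : ℤ) (x : List (Fin 4)) :
    μ (Cy s x) = ∑ a : Fin 4, μ (Cy s (x ++ [a])) := by
  have h : Cy s x = ⋃ a : Fin 4, Cy s (x ++ [a]) := by
    ext Y
    simp only [Set.mem_iUnion, mem_snoc]
    exact ⟨fun h => ⟨_, h, rfl⟩, fun ⟨_, h, _⟩ => h⟩
  rw [h, measure_iUnion ?_ fun a => (clopen s _).isOpen.measurableSet, tsum_fintype]
  intro a b hab
  rw [Function.onFun, Set.disjoint_left]
  intro Y h1 h2
  exact hab ((mem_snoc.1 h1).2.symm.trans (mem_snoc.1 h2).2)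

theorem sum_cons (μ : Measure (ℤ → Fin 4)) (s : ℤ) (x : List (Fin 4)) :
    μ (Cy (s + 1) x) = ∑ a : Fin 4, μ (Cy s (a :: x)) := by
  have h : Cy (s + 1) x = ⋃ a : Fin 4, Cy s (a :: x) := by
    ext Y
    simp only [Set.mem_iUnion, mem_cons]
    exact ⟨fun h => ⟨_, h, rfl⟩, fun ⟨_, h, _⟩ => h⟩
  rw [h, measure_iUnion ?_ fun a => (clopen s _).isOpen.measurableSet, tsum_fintype]
  intro a b hab
  rw [Function.onFun, Set.disjoint_left]
  intro Y h1 h2
  exact hab ((mem_cons.1 h1).2.symm.trans (mem_cons.1 h2).2)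

/-- the configuration given by a list on an interval -/
def cfg (N : ℕ) (L : List (Fin 4)) : ℤ → Fin 4 := fun z => L.getD (z + N).toNat 0

theorem cfg_mem (N : ℕ) (L x : List (Fin 4)) (h : L.length = x.length) :
    cfg N L ∈ Cy (-(N : ℤ)) x ↔ L = x := by
  rw [mem_Cy]
  have e : ∀ i : ℕ, cfg N L (-(N : ℤ) + (i : ℕ)) = L.getD i 0 := by
    intro i
    unfold cfg
    congr 1
    omega
  constructor
  · intro H
    refine List.ext_getElem h fun i h1 h2 => ?_
    have := H i h2
    rw [e, List.getD_eq_getElem _ _ h1] at this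
    exact this
  · rintro rfl i hi
    rw [e, List.getD_eq_getElem _ _ hi]

/-- the approximating measure -/
noncomputable def nu (p : List (Fin 4) → ℝ) (N : ℕ) : Measure (ℤ → Fin 4) :=
  ∑ f : Fin (2 * N + 1) → Fin 4,
    ENNReal.ofReal (p (List.ofFn f)) • Measure.dirac (cfg N (List.ofFn f))

theorem nu_full (p : List (Fin 4) → ℝ) (N : ℕ) (x : List (Fin 4)) (hx : x.length = 2 * N + 1) :
    nu p N (Cy (-(N : ℤ)) x) = ENNReal.ofReal (p x) := by
  unfold nu
  rw [Measure.finsetSum_apply]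
  have e : ∀ f : Fin (2 * N + 1) → Fin 4,
      (ENNReal.ofReal (p (List.ofFn f)) • Measure.dirac (cfg N (List.ofFn f)))
        (Cy (-(N : ℤ)) x) = if List.ofFn f = x then ENNReal.ofReal (p x) else 0 := by
    intro f
    rw [Measure.smul_apply, Measure.dirac_apply' _ (clopen _ _).isOpen.measurableSet, smul_eq_mul]
    by_cases h : List.ofFn f = x
    · rw [if_pos h, Set.indicator_of_mem ((cfg_mem N _ x (by simp [hx])).2 h), h]
      simp
    · rw [if_neg h, Set.indicator_of_notMem fun hm => h ((cfg_mem N _ x (by simp [hx])).1 hm)]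
      simp
  rw [Finset.sum_congr rfl fun f _ => e f]
  have hf : List.ofFn (fun i : Fin (2 * N + 1) => x[(i : ℕ)]'(by omega)) = x := by
    refine List.ext_getElem (by rw [List.length_ofFn, hx]) fun i h1 h2 => ?_
    rw [List.getElem_ofFn]
  rw [Finset.sum_eq_single (fun i : Fin (2 * N + 1) => x[(i : ℕ)]'(by omega)), if_pos hf]
  · intro g _ hg
    rw [if_neg]
    intro h
    apply hg
    exact List.ofFn_injective (h.trans hf.symm)
  · intro h
    exact absurd (Finset.mem_univ _) h

theorem nu_all (p : List (Fin 4) → ℝ) (hp : ∀ x, 0 ≤ p x)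
    (hR : ∀ x, ∑ a : Fin 4, p (x ++ [a]) = p x) (hL : ∀ x, ∑ a : Fin 4, p (a :: x) = p x)
    (N : ℕ) : ∀ (k : ℕ) (s : ℤ) (x : List (Fin 4)), x.length + k = 2 * N + 1 → -(N : ℤ) ≤ s →
      s + x.length ≤ N + 1 → nu p N (Cy s x) = ENNReal.ofReal (p x) := by
  intro k
  induction k with
  | zero =>
    intro s x h1 h2 h3
    obtain rfl : s = -(N : ℤ) := by
      have : (x.length : ℤ) = 2 * N + 1 := by exact_mod_cast h1
      omega
    exact nu_full p N x (by omega)
  | succ k ih =>
    intro s x h1 h2 h3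
    rcases lt_or_ge (s + x.length) (N + 1 : ℤ) with h | h
    · rw [sum_snoc, ← hR x, ENNReal.ofReal_sum_of_nonneg fun a _ => hp _]
      refine Finset.sum_congr rfl fun a _ => ih s (x ++ [a]) ?_ h2 ?_
      · simp; omega
      · simp; omega
    · have hs : -(N : ℤ) < s := by
        have : (x.length : ℤ) + (k + 1) = 2 * N + 1 := by exact_mod_cast h1
        omega
      obtain ⟨s', rfl⟩ : ∃ s', s = s' + 1 := ⟨s - 1, by ring⟩
      rw [sum_cons, ← hL x, ENNReal.ofReal_sum_of_nonneg fun a _ => hp _]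
      refine Finset.sum_congr rfl fun a _ => ih s' (a :: x) ?_ ?_ ?_
      · simp; omega
      · omega
      · simp; omega

theorem t_KOL : S_KOL := by
  intro p hp hp1 hR hL
  have h1 : ∀ N : ℕ, ∃ μ : ProbabilityMeasure (ℤ → Fin 4), ∀ (s : ℤ) (x : List (Fin 4)),
      -(N : ℤ) ≤ s → s + x.length ≤ N + 1 → (μ : Measure (ℤ → Fin 4)) (Cy s x) =
        ENNReal.ofReal (p x) := by
    intro N
    have hall : ∀ (s : ℤ) (x : List (Fin 4)),
      -(N : ℤ) ≤ s → s + x.length ≤ N + 1 → nu p N (Cy s x) = ENNReal.ofReal (p x) := by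
      intro s x h2 h3
      exact nu_all p hp hR hL N (2 * N + 1 - x.length) s x (by omega) h2 h3
    have hprob : IsProbabilityMeasure (nu p N) := by
      constructor
      have : (Set.univ : Set (ℤ → Fin 4)) = Cy 0 [] := by
        ext Y
        simp [Cy]
      rw [this, hall 0 [] (by omega) (by simp; omega), hp1]
      simp
    exact ⟨⟨nu p N, hprob⟩, hall⟩
  choose μ hμ using h1
  let F : Ultrafilter (ProbabilityMeasure (ℤ → Fin 4)) := (hyperfilter ℕ).map μ
  have hlim : Tendsto μ (hyperfilter ℕ : Filter ℕ) (𝓝 F.lim) := F.le_nhds_lim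
  refine ⟨(F.lim : Measure (ℤ → Fin 4)), inferInstance, fun s x => ?_⟩
  have h2 := ProbabilityMeasure.tendsto_measure_of_null_frontier_of_tendsto' hlim
    (E := Cy s x) (by rw [(clopen s x).frontier_eq]; simp)
  have h3 : ∀ᶠ N in (hyperfilter ℕ : Filter ℕ), (μ N : Measure (ℤ → Fin 4)) (Cy s x) =
      ENNReal.ofReal (p x) := by
    refine Nat.hyperfilter_le_atTop ?_
    filter_upwards [eventually_ge_atTop (s.natAbs + x.length)] with N hN
    exact hμ N s x (by omega) (by omega)
  exact tendsto_nhds_unique h2 (tendsto_const_nhds.congr' (h3.mono fun N h => h.symm))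

end Pool.Agent.Y918.AX.KOL
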